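import Pool.Agent.Helper20.P3F.St1
import Pool.Agent.Helper79.RG.M_CO2

set_option autoImplicit false

/-!
# Project P3F (MP_cb927e_an): module MAQ3
-/

open MeasureTheory Set Filter Topology
open scoped ENNReal RealInnerProductSpace

namespace Pool.Agent.Helper17.P3F

open Pool.Agent.Helper68.LM (Pl BB Bd Av HL ft fm DQ)
open Pool.Agent.Helper20.RG Pool.Agent.Helper20.EQ Pool.Agent.Helper20.P3F
open Pool.Agent.Helper68.EP (elt GapP StCPP)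
open Pool.Agent.Helper61.Lacunary (ConditionG LpBounded)

theorem graph_scale_MAQ3 {φ τ : ℝ → ℝ} (h : Graph φ τ) {ℓ : ℝ} (hℓ : 0 < ℓ) :
    Graph (fun t => φ (ℓ * t) / ℓ) (fun t => τ (ℓ * t)) := by
  refine ⟨fun t => h.1 _, fun t t' htt => ?_⟩
  have h1 := h.2 (ℓ * t) (ℓ * t') (mul_le_mul_of_nonneg_left htt hℓ.le)
  have e1 : φ (ℓ * t') / ℓ - φ (ℓ * t) / ℓ = (φ (ℓ * t') - φ (ℓ * t)) / ℓ := by ring
  constructor
  · show τ (ℓ * t) * (t' - t) ≤ φ (ℓ * t') / ℓ - φ (ℓ * t) / ℓ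
    rw [e1, le_div_iff₀ hℓ]
    calc τ (ℓ * t) * (t' - t) * ℓ = τ (ℓ * t) * (ℓ * t' - ℓ * t) := by ring
      _ ≤ _ := h1.1
  · show φ (ℓ * t') / ℓ - φ (ℓ * t) / ℓ ≤ τ (ℓ * t') * (t' - t)
    rw [e1, div_le_iff₀ hℓ]
    calc φ (ℓ * t') - φ (ℓ * t) ≤ τ (ℓ * t') * (ℓ * t' - ℓ * t) := h1.2
      _ = _ := by ring

theorem hMAQ3 (hCOV : Pool.Agent.Helper20.RG.StCOV) (hCPP : Pool.Agent.Helper68.EP.StCPP)
    (hCRQ3 : Pool.Agent.Helper20.P3F.StCRQ3) (hRES : Pool.Agent.Helper20.RG.StRES)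
    (hFIN : Pool.Agent.Helper20.RG.StFIN) : Pool.Agent.Helper20.P3F.StMAQ3 := by
  intro Ω hO hC hB h0 hG
  have hp : (1 : ℝ) < 3 := by norm_num
  have hne : Ω.Nonempty := ⟨0, h0⟩
  obtain ⟨n, P, u, v, ℓ, φ, τ, hPiece, hcov⟩ := hCOV Ω hO hC hB hne
  refine hFIN Ω 3 n P u v ℓ φ τ hB hp hPiece hcov ?_
  intro i hi
  have hpi := hPiece i hi
  refine hRES Ω (P i) (u i) (v i) (ℓ i) (φ i) (τ i) 3 hpi hp.le ?_
  intro c
  obtain ⟨A, hA, hgap⟩ := hCPP Ω 3 hO hC hB hne (by linarith) hG (P i) (u i) (v i) (ℓ i) (φ i)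
    (τ i) hpi
  have hgr : Graph (fun t => φ i (ℓ i * t) / ℓ i) (fun t => τ i (ℓ i * t)) :=
    graph_scale_MAQ3 hpi.graph hpi.pos
  obtain ⟨C, hC', hkey⟩ := hCRQ3 _ _ A c hgr hA hgap
  have : IsFiniteMeasure (arc c (fun t => φ i (ℓ i * t) / ℓ i)) := by
    unfold arc
    infer_instance
  exact Pool.Agent.Helper79.RG.co2_gen (arc c (fun t => φ i (ℓ i * t) / ℓ i)) 3 C
    (by linarith) hC' hkey

end Pool.Agent.Helper17.P3F
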